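import Pool.Agent.Lib.MP_651af7_nt.Nf.Eng
import Pool.Agent.Lib.MP_651af7_nt.Gm.UTop

/-! The share of the height for every equation that is minimal at the generic point. -/

namespace Pool.Agent.Lib.MP_651af7_nt.Nf

theorem cf : CF := fun _ _ _ _ _ _ _ _ _ h1 h2 h3 => Gm.core_free h1 h2 h3

end Pool.Agent.Lib.MP_651af7_nt.Nf
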