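import Pool.Agent.Lib.MP_651af7_nt.Nf.Shr
import Pool.Agent.Lib.MP_651af7_nt.Nc.Loc

/-! The subspace inequality for families that are independent over the field of the base. -/

namespace Pool.Agent.Lib.MP_651af7_nt.Nf

open MvPolynomial Finset Height NumberField Matrix Filter Av As Bx Ds Db Module Fc
open Tb (SBB sbb_down lx_smul)
open Nc (GT Dn Pt)
open IntermediateField (adjoin)
open Rt (Pl av mu)
open Es (vol mn)
open Ex (lx)

variable {k ι β : Type} [Field k] [Fintype ι] [NumberField k]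

theorem sbb_birat (hF : CF) {κ : Type} [Fintype κ] (A : AV k κ) {I : Ideal (MvPolynomial ι k)}
    (hb : Birat I A.I) {r : ℕ} {𝓕 : Filter β} {x : β → ι → k}
    {t : β → Fin r → k} (hg : Gn 𝓕 I x) (hi : HF 𝓕 x t) : SBB 𝓕 x t := by
  classical
  intro n T _ e B f G hB hG ε hε
  obtain ⟨φ, ψ, h, h'⟩ := hb
  obtain ⟨a, ha⟩ := h.hom
  obtain ⟨d, hd⟩ := h'.hom
  obtain ⟨i, hi0⟩ := h.ne
  have hX : (X A.ao : MvPolynomial κ k) ∉ A.I := fun hx => by
    have := (A.rep_zero (R := k)).zero _ hx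
    rw [aeval_X, A.o_ao, map_one] at this
    exact one_ne_zero this
  have hφ := h'.pull A.tr_prime (isHomogeneous_X k A.ao) hX
  rw [aeval_X] at hφ
  obtain ⟨y, hy⟩ : ∃ y : β → κ → k,
      y = fun b j => (eval (x b) (φ A.ao))⁻¹ * eval (x b) (φ j) := ⟨_, rfl⟩
  have hm : ∀ {F : Type} [Field F] [Algebra k F] (z : ι → F) (P : MvPolynomial ι k),
      aeval z P ∈ adjoin k (Set.range z) := fun z P =>
    (IntermediateField.mem_adjoin_range_iff _ _ _).2 ⟨P, 1, by rw [map_one, div_one]⟩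
  have hj : HF 𝓕 y t := fun α U j hj w hw => hi α U j hj w fun l =>
    IntermediateField.adjoin_le_iff.2 (by
      rintro _ ⟨c, rfl⟩
      have e1 : gv U (fun m => y (j m)) c = aeval (gv U fun m => x (j m)) (φ c) /
          aeval (gv U fun m => x (j m)) (φ A.ao) := by
        rw [aeval_germ, aeval_germ, germ_div, hy]
        simp only [div_eq_inv_mul]
      rw [e1]
      exact div_mem (hm _ _) (hm _ _)) (hw l)
  have hi' : GT A A.ao 𝓕 y t := gapT hF (fun f n hf h0 => by
    filter_upwards [hg.gen _ _ (ha _) hφ, hg.gen _ _ (hf.aeval φ ha)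
      (h'.pull A.tr_prime hf h0)] with b x1 x2
    rw [hy, eval_mul_of_hom hf]
    refine mul_ne_zero (pow_ne_zero _ (inv_ne_zero x1)) ?_
    rwa [← aeval_eq_eval, trans_aev] at x2) hj
  have hε' : 0 < ε / (a + 1) := by positivity
  obtain ⟨W, hW, H⟩ := Nc.mainB A A.ao (univ.image fun p : T × Fin r => (G p.1).map (aeval ψ) p.2)
    (B.map (aeval ψ)) f hi' hε'
  refine ⟨_, inter_mem ((hg.ne.and hg.zero).and ((hg.gen _ _ (ha _) hφ).and
    (hg.gen _ _ ((hd i).aeval φ ha) hi0))) hW, fun S => ?_⟩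
  choose C₁ h1 using fun c : Pl S → T => H S (fun p => (G (c p)).map (aeval ψ))
    fun p l => mem_image.2 ⟨(c p, l), mem_univ _, rfl⟩
  obtain ⟨C₀, hC₀⟩ := Finite.bddAbove_range C₁
  obtain ⟨C₃, h3⟩ := logHeight_eval_le' ha
  refine ⟨C₀ + ε / (a + 1) * C₃, ?_⟩
  rintro b ⟨⟨⟨x0, xz⟩, x1, x2⟩, bW⟩ c g0 g1 g2
  obtain ⟨c₀, hc₀, e0⟩ := h.pt (x := x b) x0 xz x2
  obtain ⟨s, hs, e1⟩ : ∃ s : k, s ≠ 0 ∧ ∀ a, eval (y b) (ψ a) = s * x b a :=
    ⟨(eval (x b) (φ A.ao))⁻¹ ^ d * c₀, mul_ne_zero (pow_ne_zero _ (inv_ne_zero x1)) hc₀, fun a => by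
      rw [hy, eval_mul_of_hom (hd a), mul_assoc, ← e0]
      rfl⟩
  have ya : Aff A A.ao (y b) := by
    rw [hy]
    exact ⟨inv_mul_cancel₀ x1, zero_mul_of_hom A.hom (h.zero (x := x b) xz) _⟩
  have eG : ∀ {m : ℕ} (M : Matrix (Fin m) (Fin r) (MvPolynomial ι k)),
      (∀ i j, (M i j).IsHomogeneous e) →
      (M.map (aeval ψ)).map (eval (y b)) = s ^ e • M.map (eval (x b)) := by
    intro m M hM
    ext i j
    change eval (y b) (aeval ψ (M i j)) = s ^ e * eval (x b) (M i j)
    rw [← aeval_eq_eval, trans_aev, ← eval_mul_of_hom (hM i j), ← funext e1]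
    rfl
  have hse := pow_ne_zero e hs
  have h4 := h1 c b bW ya
  simp only [eG B hB, eG _ (hG _), Matrix.smul_mulVec, Pi.smul_apply, smul_eq_mul, det_smul,
    Es.mn_smul, lx_smul _ hse, logHeight_smul_eq_logHeight _ hse,
    logHeight_smul_eq_logHeight _ (pow_ne_zero r hse)] at h4
  replace h4 := h4 (mul_ne_zero (pow_ne_zero _ hse) g0)
    (fun p => mul_ne_zero (pow_ne_zero _ hse) (g1 p)) fun p l => mul_ne_zero hse (g2 p l)
  have h7 : logHeight (y b) ≤ C₃ + a * logHeight (x b) := by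
    rw [hy]
    exact (logHeight_mul_left (inv_ne_zero x1) _).trans_le (h3 _)
  have h8 : ε / (a + 1) * (a * logHeight (x b)) ≤ ε * logHeight (x b) := by
    rw [← mul_assoc]
    refine mul_le_mul_of_nonneg_right ?_ (logHeight_nonneg _)
    rw [div_mul_eq_mul_div, div_le_iff₀ (by positivity)]
    nlinarith
  have h9 := mul_le_mul_of_nonneg_right (div_le_self hε.le (show (1 : ℝ) ≤ a + 1 by
    linarith [a.cast_nonneg (α := ℝ)])) (logHeight_nonneg (B.map (eval (x b)) *ᵥ t b))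
  have h10 : C₁ c ≤ C₀ := hC₀ ⟨c, rfl⟩
  linarith [mul_le_mul_of_nonneg_left h7 hε'.le]

theorem sbb_model (hF : CF) {κ : Type} [Fintype κ] {I : Ideal (MvPolynomial ι k)} (hI : Var I)
    {J : Ideal (MvPolynomial κ (AlgebraicClosure k))} (hA : Abelian J)
    (hb : Birat (I.map (MvPolynomial.map (algebraMap k (AlgebraicClosure k)))) J) {r : ℕ}
    {𝓕 : Filter β} {x : β → ι → k} {t : β → Fin r → k} (hg : Gn 𝓕 I x)
    (hi : ∀ (L : Type) [Field L] [Algebra k L] [FiniteDimensional k L],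
      HF 𝓕 (fun b a => algebraMap k L (x b a)) fun b l => algebraMap k L (t b l)) :
    SBB 𝓕 x t := by
  obtain ⟨A, _, co, a1, a2⟩ := hA
  obtain ⟨m, J', co', Φ, h1, h2, h3, h4⟩ := Cu.model a1 a2
  have : Nonempty A := ⟨0⟩
  obtain ⟨K, hK, B, hB⟩ := Ds.descend (k := k) h1 h2
    (hb.trans hI.prime a1.prime h1.prime a1.exists_X (a1.birat h1 h3 h4))
  have : NumberField K := NumberField.of_module_finite k K
  refine sbb_down (sbb_birat hF B hB
    ⟨hg.ne.mono fun b h h' => h (funext fun a => (map_eq_zero _).1 (congrFun h' a)),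
      hg.zero.mono fun b => zero_up, fun P d hP h0 => ?_⟩ (hi K))
  obtain ⟨l, hl⟩ : ∃ l : K →ₗ[k] k, Av.cf l P ∉ I :=
    not_forall.1 fun h => h0 (map_le_up (mem_map_of_cf h))
  refine (hg.gen _ d (fun m hm => hP fun e => hm ?_) hl).mono fun b h e => h ?_
  · rw [coeff_cf, e, map_zero]
  · rw [eval_cf, e, map_zero]

variable {K : Type} [Field K] [Algebra k K] {J : Ideal (MvPolynomial ι k)} {y : ι → K}
  {𝓕 : Filter β} {v : β → K → k}

omit [Fintype ι] [NumberField k] in
theorem hf (h : Sp 𝓕 v) (h1 : ∃ a, y a = 1) {r : ℕ} {t : Fin r → K}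
    (ht : LinearIndependent (adjoin k (Set.range y)) t) (L : Type) [Field L] [Algebra k L]
    [FiniteDimensional k L] : HF 𝓕 (fun p a => algebraMap k L (v p (y a)))
      fun p l => algebraMap k L (v p (t l)) := by
  intro α U j hj w hw h0
  obtain ⟨a, ha⟩ := h1
  obtain ⟨μ, P, Q, -, -, hQ, hc⟩ := Nc.frac (k := L)
    (y := gv U fun m a => algebraMap k L (v (j m) (y a))) ⟨a, ((germ_eq U).2
      ((hj.eventually h.one).mono fun m hm => by simp [ha, hm])).trans (map_one (germ U))⟩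
    fun l => ⟨w l, hw l⟩
  have h2 : ∀ᶠ m in U, ∑ l, eval (fun a => algebraMap k L (v (j m) (y a))) (P l) *
      algebraMap k L (v (j m) (t l)) = 0 := by
    have h3 : ∑ l, aeval (gv U fun m a => algebraMap k L (v (j m) (y a))) (P l) *
        gv U (fun m l => algebraMap k L (v (j m) (t l))) l = 0 := by
      simp only [hc, mul_assoc, ← mul_sum]
      exact mul_eq_zero_of_right _ h0
    simp only [aeval_germ, gv, ← map_mul, ← map_sum] at h3
    exact (germ_eq_zero.1 h3).mono fun m hm => by simpa using hm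
  have h3 : ∀ (s : L →ₗ[k] k) (l : Fin r), ∀ᶠ m in U,
      s (eval (fun a => algebraMap k L (v (j m) (y a))) (P l)) = 0 := fun s l => by
    have h4 : ∑ l, aeval y (Av.cf s (P l)) * t l = 0 := by
      by_contra h5
      obtain ⟨m, m1, m2, m3, m4⟩ := (h2.and ((hj.eventually (h.ne h5)).and
        ((hj.eventually (h.sum univ fun l => aeval y (Av.cf s (P l)) * t l)).and
          (eventually_all.2 fun l => hj.eventually ((h.mul (aeval y (Av.cf s (P l))) (t l)).and
            (h.aeval y (Av.cf s (P l)))))))).exists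
      refine m2 (m3.trans (Eq.trans ?_ ((congrArg s m1).trans (map_zero s))))
      rw [map_sum]
      refine sum_congr rfl fun l _ => ?_
      rw [(m4 l).1, (m4 l).2, eval_cf, mul_comm, mul_comm (eval _ _), ← Algebra.smul_def,
        map_smul, smul_eq_mul]
    have h5 := congrArg Subtype.val (Fintype.linearIndependent_iff.1 ht (fun l =>
      ⟨aeval y (Av.cf s (P l)), (IntermediateField.mem_adjoin_range_iff _ _ _).2
        ⟨Av.cf s (P l), 1, by rw [map_one, div_one]⟩⟩) h4 l)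
    filter_upwards [hj.eventually (h.aeval y (Av.cf s (P l))), hj.eventually h.zero] with m m1 m2
    rw [← eval_cf, ← m1, show aeval y (Av.cf s (P l)) = 0 from h5, m2]
  funext l
  refine (mul_eq_zero.1 ((hc l).symm.trans ?_)).resolve_left hQ
  rw [aeval_germ]
  refine germ_eq_zero.2 ((eventually_all.2 fun i => h3 ((Module.finBasis k L).coord i) l).mono
    fun m hm => ?_)
  exact (Module.finBasis k L).forall_coord_eq_zero_iff.1 hm

theorem dn (hF : CF) (D : Pt J y)
    (hA : Abelian (J.map (MvPolynomial.map (algebraMap k (AlgebraicClosure k))))) : Dn J y := by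
  obtain ⟨A, _, co, a1, -⟩ := id hA
  have : Nonempty A := ⟨0⟩
  have h0 : Bx.Inv _ (J.map (MvPolynomial.map (algebraMap k (AlgebraicClosure k)))) X X :=
    ⟨⟨1, isHomogeneous_X _⟩, fun P hP => by rwa [aeval_X_left_apply], by simpa using a1.exists_X,
      fun i l => by simp [mul_comm]⟩
  exact ⟨D, fun β 𝓕 v h r t ht =>
    sbb_model hF ⟨D.hom, a1.prime⟩ hA ⟨_, _, h0, h0⟩ (D.gn h) (hf h D.one ht)⟩

end Pool.Agent.Lib.MP_651af7_nt.Nf
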