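import Pool.Agent.Lib.MP_651af7_nt.Am5.Main5
import Pool.Agent.Lib.MP_651af7_nt.Nf.Core

/-! Integral points off `2 n` semiample divisors, any field of constants. -/

namespace Pool.Agent.Lib.MP_651af7_nt.Nf

open Height MvPolynomial NumberField IntermediateField Ds Am

theorem main5 (k : Type) [Field k] [NumberField k] (g R N q n : ℕ)
    (J : Ideal (MvPolynomial (Fin g) k)) (K : Type) [Field K] [Algebra k K] (y : Fin g → K)
    (ξ : Fin R × Fin N → K) (D : Nc.Dn J y) (ξ1 : ∀ b, ∃ a, ξ (b, a) ≠ 0)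
    (F : IntermediateField k K)
    (hF : F = adjoin k (Set.range y)) (hK : adjoin F (Set.range ξ) = ⊤)
    (hn : Algebra.trdeg F K = n) (n0 : 0 < n)
    (U : Fin q → MvPolynomial (Fin g ⊕ Fin R × Fin N) k)
    (hU : ∀ j, aeval (Sum.elim y ξ) (U j) ≠ 0) (d : Fin q → Fin R → ℕ)
    (hd : ∀ j, Algebra.IsAlgebraic
      (adjoin F {z | ∃ b a a', d j b ≠ 0 ∧ z = ξ (b, a) / ξ (b, a')}) K)
    (he : ∃ j, Algebra.IsAlgebraic
      (adjoin k {z | ∃ b a a', d j b ≠ 0 ∧ z = ξ (b, a) / ξ (b, a')}) K)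
    (hh : ∀ j, aeval (Sum.elim y ξ) (U j) ∈ bm F ξ (d j))
    (hP : Gen F ξ (fun j => aeval (Sum.elim y ξ) (U j)) d)
    (h1 : 2 * n ≤ q) (h2 : 3 ≤ q) :
    ∃ (Θ : MvPolynomial (Fin g ⊕ Fin R × Fin N) k) (c : Fin q → ℕ),
      aeval (Sum.elim y ξ) Θ ≠ 0 ∧ ∀ S : Finset (FinitePlace k), ∃ C : ℝ,
        ∀ (x : Fin g → k) (t : Fin R × Fin N → k),
        (∀ P, aeval (Sum.elim y ξ) P = 0 → eval (Sum.elim x t) P = 0) →
        eval (Sum.elim x t) Θ ≠ 0 → (∀ j, eval (Sum.elim x t) (U j) ≠ 0) ∧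
        (∀ b, (fun a => t (b, a)) ≠ 0) ∧
        logHeight x + ∑ b, logHeight (fun a => t (b, a)) ≤
          ∑ j, c j * ∑ᶠ v ∈ (S : Set (FinitePlace k))ᶜ, Real.log
            ((∏ b, (⨆ a, v (t (b, a))) ^ d j b) / v (eval (Sum.elim x t) (U j))) + C := by
  subst hF
  obtain ⟨T, _, _, κ, D0, hκ, hS⟩ := hilb ξ1 hn
  obtain ⟨v, h, hv⟩ := Fc.sp_top (k := k) hK
  have ξ2 := ξ1
  choose m hm using ξ2
  obtain ⟨o, ho⟩ := D.one
  obtain ⟨j₁, he⟩ := he
  obtain ⟨C₀, hC₀⟩ := Main5_hc y h hm (d j₁) he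
  obtain ⟨Y, a, M, Z, G, G', g3, g2, g4, g5, g7, g8⟩ := Am5.num5 κ hκ hS
    (fun _ _ h => inc_le (Inc.of_le ξ1 h)) (fun j => Am3.big ξ1 hn n0 hκ hS (d j) (hd j)) h1
    (by omega) (2 * C₀) j₁
  have : Infinite (adjoin k (Set.range y)) := Infinite.of_injective _ (algebraMap k _).injective
  obtain ⟨A, hA'⟩ : ∃ A : ℕ, A = (2 * ∑ b, Y b + 2) * C₀ := ⟨_, rfl⟩
  have hN := nev5 ξ1 hh hU hP g3 g2 g4 (2 * A)
  obtain ⟨W, w1, h3⟩ := core D h (fun j => Function.ne_iff.2 ⟨finFunctionFinEquiv m, by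
    simp only [pw, Equiv.symm_apply_apply]
    exact mul_ne_zero (hU j) (Finset.prod_ne_zero_iff.2 fun b _ => pow_ne_zero _ (hm b))⟩) 0 hN
    (ε := 1) one_pos
  have w2 : ∀ P, ∀ᶠ z in Fc.gen k (Sum.elim y ξ), v z (aeval (Sum.elim y ξ) P) = eval z P :=
    fun P => by
      filter_upwards [hv, h.aeval (Sum.elim y ξ) P] with z z1 z2
      have e1 : (fun s => v z (Sum.elim y ξ s)) = z := funext (Sum.forall.2 z1)
      rw [z2, e1]
  have w3 : ∀ μ : Mn N Y, ∀ᶠ z in Fc.gen k (Sum.elim y ξ),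
      v z (mn ξ μ) = mn (fun s => z (.inr s)) μ := fun μ => by
    simpa [mn] using w2 (mn (fun s => X (.inr s)) μ)
  have w4 : ∀ j l, ∀ᶠ z in Fc.gen k (Sum.elim y ξ),
      v z (pw ξ (aeval (Sum.elim y ξ) (U j)) (fun b => Y b - d j b) l) =
        pw (fun s => z (.inr s)) (eval z (U j)) (fun b => Y b - d j b) l := fun j l => by
    simpa [pw] using w2 (pw (fun s => X (.inr s)) (U j) (fun b => Y b - d j b) l)
  have w5 : ∀ P, aeval (Sum.elim y ξ) P ≠ 0 → ∀ᶠ z in Fc.gen k (Sum.elim y ξ), eval z P ≠ 0 :=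
    fun P hP => ⟨P, hP, fun _ _ h => h⟩
  obtain ⟨Θ, a1, a2⟩ := Filter.inter_mem w1 (hv.and ((Filter.eventually_all.2 w3).and
    ((Filter.eventually_all.2 fun j => Filter.eventually_all.2 (w4 j)).and
    ((Filter.eventually_all.2 fun j => w5 _ (hU j)).and
    ((w5 (X (.inl o)) (by simp [ho])).and
    ((Filter.eventually_all.2 fun b => w5 (X (.inr (b, m b))) (by simpa using hm b)).and
    hC₀))))))
  refine ⟨Θ, fun j => 2 * A * a j, a1, fun S => ?_⟩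
  obtain ⟨C, hC⟩ := h3 S
  refine ⟨C + A * G + A, fun x t p1 p2 => ?_⟩
  obtain ⟨b1, ⟨b2, b2'⟩, b3, b4, b5, b6, b7, b8⟩ := a2 _ p1 p2
  have hx : x ≠ 0 := Function.ne_iff.2 ⟨o, by simpa using b6⟩
  have ht : ∀ b, (fun a => t (b, a)) ≠ 0 := fun b => Function.ne_iff.2 ⟨m b, by simpa using b7 b⟩
  refine ⟨b5, ht, ?_⟩
  have c1 := hC _ b1
  simp only [b2, b3, b4, Sum.elim_inl, Sum.elim_inr, Pi.zero_apply] at c1
  simp only [b2, b2', Sum.elim_inl, Sum.elim_inr] at b8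
  have c2 := fun j => Main_split S hx ht (b5 j) 0 (g3 j)
  have c3 := Main_ht ht Y
  have c4 : ∀ b, (Y b : ℝ) + G * d j₁ b ≤ ∑ j, (a j : ℝ) * d j b + G' := fun b => by
    exact_mod_cast g8 b
  have c8 : ∑ b, Y b * logHeight (fun a => t (b, a)) ≤
      (∑ b, (Y b : ℝ)) * ∑ b, logHeight fun a => t (b, a) := by
    rw [Finset.mul_sum]
    exact Finset.sum_le_sum fun b _ => mul_le_mul_of_nonneg_right (Finset.single_le_sum
      (f := fun b => (Y b : ℝ)) (fun _ _ => Nat.cast_nonneg _) (Finset.mem_univ b))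
      (logHeight_nonneg _)
  have c9 : 0 ≤ ∑ b, d j₁ b * logHeight (fun a => t (b, a)) :=
    Finset.sum_nonneg fun _ _ => mul_nonneg (Nat.cast_nonneg _) (logHeight_nonneg _)
  have c10 := Finset.sum_congr rfl fun j (_ : j ∈ Finset.univ) => congrArg ((a j : ℝ) * ·) (c2 j)
  have c11 : ∑ b, Y b * logHeight (fun a => t (b, a)) +
      G * ∑ b, d j₁ b * logHeight (fun a => t (b, a)) ≤
      ∑ j, (a j : ℝ) * ∑ b, d j b * logHeight (fun a => t (b, a)) +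
        G' * ∑ b, logHeight fun a => t (b, a) := by
    simp only [Finset.mul_sum, ← mul_assoc]
    rw [Finset.sum_comm, ← Finset.sum_add_distrib, ← Finset.sum_add_distrib]
    refine Finset.sum_le_sum fun b _ => ?_
    rw [← Finset.sum_mul, ← add_mul, ← add_mul]
    exact mul_le_mul_of_nonneg_right (c4 b) (logHeight_nonneg _)
  simp only [mul_add, Finset.sum_add_distrib, Nat.cast_zero, zero_mul, mul_zero,
    Finset.sum_const_zero, zero_add] at c10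
  conv at c10 => enter [1, 2]; simp only [pow_zero, one_mul]
  have c12 : ∑ s : Rt.Pl S, (Rt.mu s : ℝ) * ∑ j, ((2 * A * a j : ℕ) : ℝ) *
      Real.log ((⨆ i, Rt.av s (x i)) ^ 0 * (⨆ μ : Mn N Y, Rt.av s (mn t μ)) ^ 1 /
        ⨆ l, Rt.av s (pw t (eval (Sum.elim x t) (U j)) (fun b => Y b - d j b) l)) =
      2 * A * ∑ j, (a j : ℝ) * Tb.iS S (fun w => Real.log ((⨆ i, w (x i)) ^ 0 *
        (⨆ μ : Mn N Y, w (mn t μ)) ^ 1 /
        ⨆ l, w (pw t (eval (Sum.elim x t) (U j)) (fun b => Y b - d j b) l))) := by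
    simp only [Tb.iS, Finset.mul_sum]
    rw [Finset.sum_comm]
    refine Finset.sum_congr rfl fun j _ => Finset.sum_congr rfl fun s _ => ?_
    push_cast
    ring
  have c13 : (∑ s : Rt.Pl S, (Rt.mu s : ℝ) * ∑ j, ((2 * A * a j : ℕ) : ℝ) *
      Real.log ((⨆ i, Rt.av s (x i)) ^ 0 * (⨆ μ : Mn N Y, Rt.av s (mn t μ)) ^ 1 /
        ⨆ l, Rt.av s (pw t (eval (Sum.elim x t) (U j)) (fun b => Y b - d j b) l))) ≤
      ((((2 * A + 1) * 1 : ℕ) : ℝ) + 1) * logHeight (mn (Y := Y) t) + 1 * logHeight x + C := c1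
  rw [c12, c3] at c13
  simp only [Nat.cast_mul, Nat.cast_ofNat, mul_assoc (2 * A : ℝ), ← Finset.mul_sum]
  have c14 := logHeight_nonneg x
  refine Main5_num (by exact_mod_cast hA') (by exact_mod_cast g5) (Nat.cast_nonneg G')
    (Nat.cast_nonneg _) (Finset.sum_nonneg fun _ _ => Nat.cast_nonneg _) (by exact_mod_cast g7) c14
    (Finset.sum_nonneg fun _ _ => logHeight_nonneg _) c9 b8 c8 c11 ?_ c10
  simpa only [mul_one, one_mul, Nat.cast_add, Nat.cast_mul, Nat.cast_ofNat, Nat.cast_one] using c13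

end Pool.Agent.Lib.MP_651af7_nt.Nf
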