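import Pool.Agent.Lib.MP_651af7_nt.Fx.Nev
import Pool.Agent.Lib.MP_651af7_nt.Nf.Core

/-! The theorem of Ru and Vojta in a fixed degree, any field of constants. -/

namespace Pool.Agent.Lib.MP_651af7_nt.Nf

open Height MvPolynomial NumberField IntermediateField Module Filter Ds Fc Fx
open Rt (Pl av mu)

theorem sharp (k : Type) [Field k] [NumberField k] (g n q s : ℕ)
    (J : Ideal (MvPolynomial (Fin g) k)) (K : Type) [Field K] [Algebra k K] (y : Fin g → K)
    (f : Fin n → K) (D : Nc.Dn J y) (f1 : ∃ i, f i ≠ 0) (F : IntermediateField k K)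
    (hF : F = adjoin k (Set.range y)) (hK : adjoin F (Set.range f) = ⊤)
    (U : Fin q → Fin s → MvPolynomial (Fin g ⊕ Fin n) k)
    (hU : ∀ j, ∃ l, aeval (Sum.elim y f) (U j l) ≠ 0) (e δ : Fin q → ℕ)
    (hδ : ∀ j l, aeval (Sum.elim y f) (U j l) ∈ mon F f (δ j))
    (hP : GenPos F f (fun j l => aeval (Sum.elim y f) (U j l)) δ) (d M : ℕ) (a : Fin q → ℕ)
    (ha : ∀ j, a j ≤ ∑ m ∈ Finset.range M,
      finrank F (van F f (fun j l => aeval (Sum.elim y f) (U j l)) δ j d (m + 1)))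
    (r : ℕ) (hr : r = finrank F (mon F f d)) (φ : Fin r → K)
    (B : Matrix (Fin d → Fin n) (Fin r) (MvPolynomial (Fin g) k))
    (hB : ∀ c, ∏ i, f (c i) = ∑ l, aeval y (B c l) * φ l) (ε : ℝ) (hε : 0 < ε) :
    ∃ Θ : MvPolynomial (Fin g ⊕ Fin n) k, aeval (Sum.elim y f) Θ ≠ 0 ∧
      ∀ S : Finset (FinitePlace k), ∃ C : ℝ, ∀ (x : Fin g → k) (t : Fin n → k),
        (∀ P, aeval (Sum.elim y f) P = 0 → eval (Sum.elim x t) P = 0) →
        eval (Sum.elim x t) Θ ≠ 0 → (∀ j, ∃ l, eval (Sum.elim x t) (U j l) ≠ 0) ∧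
        ∑ j, a j *
          (∑ v : InfinitePlace k, v.mult * Real.log ((⨆ i, v (x i)) ^ e j *
            (⨆ i, v (t i)) ^ δ j / ⨆ l, v (eval (Sum.elim x t) (U j l))) +
          ∑ v ∈ S, Real.log ((⨆ i, v (x i)) ^ e j *
            (⨆ i, v (t i)) ^ δ j / ⨆ l, v (eval (Sum.elim x t) (U j l)))) +
        logHeight (fun c => ((B.map (eval x)).submatrix c id).det) ≤
        (1 + ε) * (d * r) * logHeight t + ε * logHeight x + C := by
  subst hF
  obtain ⟨v, h, hv⟩ := sp_top (k := k) hK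
  let B' : Matrix (Fin d → Fin n) (Fin r) (adjoin k (Set.range y)) := Matrix.of fun c l =>
    ⟨aeval y (B c l), algebra_adjoin_le_adjoin _ _
      ((Algebra.adjoin_range_eq_range_aeval k y).ge ⟨_, rfl⟩)⟩
  obtain ⟨b1, b2, c₀, b3⟩ := basis_of (B := B') hr hB
  obtain ⟨N, hN⟩ := exists_nat_gt (2 / ε)
  have n1 : (0 : ℝ) < N := lt_trans (by positivity) hN
  have n2 : 2 ≤ ε * N := ((div_lt_iff₀' hε).1 hN).le
  obtain ⟨W, w1, h1⟩ := coreX D h (Function.ne_iff.2 f1) (fun j => Function.ne_iff.2 (hU j)) e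
    (hr ▸ mon_pos f1 d) b1 hB b3 (nevG hδ hP b2 ha N) one_pos
  choose l hl using hU
  obtain ⟨Θ, a1, a2⟩ := inter_mem w1 (hv.and ((eventually_all.2 fun j => h.ne (hl j)).and
    ((eventually_all.2 fun j => eventually_all.2 fun l => h.aeval (Sum.elim y f) (U j l)).and
      (eventually_all.2 fun c => eventually_all.2 fun l => h.aeval y (B c l)))))
  refine ⟨Θ, a1, fun S => ?_⟩
  obtain ⟨C, hC⟩ := h1 S
  refine ⟨C / N, fun x t p0 p0' => ?_⟩
  obtain ⟨p1, ⟨p2, p3⟩, p4, p5, p6⟩ := a2 _ p0 p0'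
  have e1 : (fun s => v (Sum.elim x t) (Sum.elim y f s)) = Sum.elim x t :=
    funext (Sum.forall.2 ⟨p2, p3⟩)
  simp only [e1] at p5
  have e2 : (B'.map fun z => v (Sum.elim x t) z) = B.map (eval x) := by
    ext c l
    exact (p6 c l).trans (by simp only [p2]; rfl)
  have h2 := hC _ p1
  simp only [p2, p3, p5, e2, Sum.elim_inl, Sum.elim_inr, Finset.mul_sum, Nat.cast_mul,
    mul_assoc, mul_left_comm (mu _ : ℝ)] at h2
  rw [Finset.sum_comm] at h2
  simp only [← Finset.mul_sum, Fintype.sum_sum_type, Rt.mu, Rt.av, Sum.elim_inl, Sum.elim_inr,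
    Nat.cast_one, one_mul] at h2
  refine ⟨fun j => ⟨l j, p5 j _ ▸ p4 j⟩, le_of_mul_le_mul_left ?_ n1⟩
  simp only [← Finset.sum_coe_sort S]
  have k1 := logHeight_nonneg (Tb.mne (B.map (eval x)))
  have k2 := mul_le_mul_of_nonneg_right n2 (logHeight_nonneg x)
  have k3 := mul_le_mul_of_nonneg_right n2
    (mul_nonneg (show (0 : ℝ) ≤ d * r by positivity) (logHeight_nonneg t))
  have k4 := logHeight_nonneg x
  rw [mul_add _ _ (C / N), mul_div_cancel₀ _ n1.ne', mul_add]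
  push_cast at h2
  refine le_trans (add_le_add_right ?_ _) (h2.trans ?_)
  · change _ * logHeight (Tb.mne (B.map (eval x))) ≤ _
    linarith
  · linarith

end Pool.Agent.Lib.MP_651af7_nt.Nf
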