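import Pool.Agent.Lib.MP_651af7_nt.Nc.Gap

/-! Gap vectors are rational over the function field of the abelian variety. -/

namespace Pool.Agent.Lib.MP_651af7_nt.Nf

open MvPolynomial Height Filter Matrix Av As Av.AV Nc
open IntermediateField (adjoin)
open Jn (rr)

/-- A rational root of an equation that is minimal at the generic point has its share. -/
def CF : Prop :=
  ∀ (k ι : Type) [Field k] [NumberField k] [Fintype ι] (A : AV k ι) (e μ : ℕ)
    (ρ : Fin (e + 2) → MvPolynomial ι k), (∀ j, (ρ j).IsHomogeneous μ) → ρ (Fin.last _) ∉ A.I →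
    MinG A ρ → Sh.Core A ρ

variable {k ι β α : Type} [Field k]

/-- Independence of `t` over the field of `x`. -/
def HF {r : ℕ} (𝓕 : Filter β) (x : β → ι → k) (t : β → Fin r → k) : Prop :=
  ∀ (α : Type) (U : Ultrafilter α) (j : α → β), Tendsto j U 𝓕 → ∀ w : Fin r → Up U k,
    (∀ l, w l ∈ adjoin k (Set.range (gv U fun m => x (j m)))) →
      w ⬝ᵥ (gv U fun m => t (j m)) = 0 → w = 0

variable [NumberField k] [Fintype ι] {U : Ultrafilter α} {A : AV k ι} {a₀ : ι} {x : α → ι → k}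
  {q : α → ℝ}

theorem bdd (hq : Tendsto q U atTop) (h : ∀ᶠ m in U, x m a₀ = 1 ∧ logHeight (x m) ≤ q m) :
    Bdd (k := k) U q (adjoin k (Set.range (gv U x))) := by
  have key : ∀ z ∈ adjoin k (Set.range (gv U x)), ∃ (f : α → k) (C : ℝ), germ U f = z ∧
      ∀ᶠ m in U, logHeight₁ (f m) ≤ C * q m := by
    intro z hz
    induction hz using IntermediateField.adjoin_induction with
    | mem z hz =>
      obtain ⟨a, rfl⟩ := hz
      refine ⟨fun n => x n a, 1, rfl, h.mono fun n ⟨h1, h2⟩ => ?_⟩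
      have h3 := logHeight₁_div_le (x n) a a₀
      rw [h1, div_one] at h3
      linarith
    | algebraMap c =>
      exact ⟨fun _ => c, 1, rfl, (hq.eventually_ge_atTop (logHeight₁ c)).mono fun n g =>
        g.trans_eq (one_mul _).symm⟩
    | add w z _ _ hw hz =>
      obtain ⟨f, C, rfl, h1⟩ := hw
      obtain ⟨g, C', rfl, h2⟩ := hz
      refine ⟨f + g, 1 + C + C', map_add _ _ _, ?_⟩
      filter_upwards [h1, h2, hq.eventually_ge_atTop (totalWeight k * Real.log 2)] with n g1 g2 g3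
      have := logHeight₁_add_le (f n) (g n)
      rw [Pi.add_apply]
      linarith
    | inv w _ hw =>
      obtain ⟨f, C, rfl, h1⟩ := hw
      exact ⟨fun n => (f n)⁻¹, C, rfl, h1.mono fun n g => (logHeight₁_inv _).trans_le g⟩
    | mul w z _ _ hw hz =>
      obtain ⟨f, C, rfl, h1⟩ := hw
      obtain ⟨g, C', rfl, h2⟩ := hz
      refine ⟨f * g, C + C', map_mul _ _ _, ?_⟩
      filter_upwards [h1, h2] with n g1 g2
      have := logHeight₁_mul_le (f n) (g n)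
      rw [Pi.mul_apply]
      linarith
  intro b f hf
  obtain ⟨g, C, h1, h2⟩ := key b b.2
  exact ⟨C, (h2.and ((germ_eq U).1 (h1.trans hf))).mono fun n g => g.2 ▸ g.1⟩

theorem shr (hF : CF) (hgen : ∀ (f : MvPolynomial ι k) (n : ℕ), f.IsHomogeneous n → f ∉ A.I →
      ∀ᶠ m in U, eval (x m) f ≠ 0) (hq : Tendsto q U atTop)
    (h : ∀ᶠ m in U, Aff A a₀ (x m) ∧ logHeight (x m) ≤ q m) :
    Shr (k := k) U q (adjoin k (Set.range (gv U x))) := by
  intro d p t a hp hd ht ha ε hε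
  have h1 : gv U x a₀ = 1 := ((germ_eq U).2 (h.mono fun n g => g.1.1)).trans (map_one (germ U))
  obtain ⟨μ, ρ, Q, hρ, hQ, hQ0, hc⟩ := frac (k := k) (y := gv U x) ⟨a₀, h1⟩
    fun j : Fin (d + 2) => p.coeff j
  have hq0 : ∀ᶠ n in U, eval (x n) Q ≠ 0 := germ_ne_zero.1 (aeval_germ Q x ▸ hQ0)
  have e2 : ∀ᶠ n in U, ∀ j, eval (x n) (ρ j) = eval (x n) Q * a n j :=
    eventually_all.2 fun j => by
      have h2 := hc j
      rw [aeval_germ, aeval_germ, show ((p.coeff j : _) : Up U k) = _ from ha j, ← map_mul] at h2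
      exact (germ_eq U).1 h2
  have hl : aeval (gv U x) (ρ (Fin.last _)) ≠ 0 := by
    rw [hc]
    refine mul_ne_zero hQ0 fun h2 => hp.ne_zero (Polynomial.leadingCoeff_eq_zero.1 ?_)
    rw [Polynomial.leadingCoeff, hd]
    exact Subtype.ext h2
  have hmap : rr ρ (gv U x) =
      Polynomial.C (aeval (gv U x) Q) * p.map (algebraMap _ (Up U k)) := by
    ext j
    rw [Polynomial.coeff_C_mul, Polynomial.coeff_map]
    by_cases hj : j < d + 2
    · exact (Jn.one_coeff ρ _ ⟨j, hj⟩).trans (hc _)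
    · rw [Polynomial.coeff_eq_zero_of_natDegree_lt ((Jn.one_deg _ _).trans_lt (by omega)),
        Polynomial.coeff_eq_zero_of_natDegree_lt (by omega), map_zero, mul_zero]
  have hirp : Irp ρ (gv U x) := fun p' hp' => by
    have h2 : aeval (gv U x) Q ∈ adjoin k (Set.range (gv U x)) :=
      (IntermediateField.mem_adjoin_range_iff _ _ _).2 ⟨Q, 1, by rw [map_one, div_one]⟩
    have h3 : p' = Polynomial.C ⟨_, h2⟩ * p := Polynomial.map_injective _
      (algebraMap _ (Up U k)).injective (by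
        rw [hp', hmap, Polynomial.map_mul, Polynomial.map_C]
        rfl)
    rw [h3]
    exact (irreducible_isUnit_mul (Polynomial.isUnit_C.2
      (Ne.isUnit fun h4 => hQ0 (congrArg Subtype.val h4)))).2 hp
  have h0 : ∑ j, aeval (gv U x) (ρ j) * germ U t ^ (j : ℕ) = 0 := by
    rw [← Sh.rr_eval, hmap, Polynomial.eval_mul, Polynomial.eval_map_algebraMap, ht, mul_zero]
  have hg : Gen (A.IK k) (gv U x) := fun f n hf h2 => by
    by_contra h3
    rw [aeval_germ] at h2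
    refine germ_ne_zero.2 (hgen f n hf fun h4 => h3 ?_) h2
    have h5 := Ideal.mem_map_of_mem (MvPolynomial.map (algebraMap k k)) h4
    rwa [show MvPolynomial.map (algebraMap k k) f = f from MvPolynomial.map_id f] at h5
  obtain ⟨-, hm⟩ := (minG_of_irp (B := A) (ρ := fun _ => ρ) relCl_up (h.mono fun n g => g.1) hg
    (fun j => Repr.const _) (.of_forall fun _ => hρ) hl hirp).exists
  obtain ⟨Θ, n, C, t1, t2, t3⟩ := hF k ι A d μ ρ hρ (fun h2 => hl (by
    rw [aeval_germ]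
    exact germ_eq_zero.2 (h.mono fun n g => g.1.2 _ h2))) hm (ε / 2) (half_pos hε)
  simp only [aeval_germ, ← map_pow, ← map_mul, ← map_sum] at h0
  filter_upwards [h, hq0, e2, hgen Θ n t1 t2, germ_eq_zero.1 h0,
    hq.eventually_ge_atTop (C / (ε / 2))] with m g1 g2 g3 g4 g5 g6
  have g7 := t3 (x m) (t m) (fun e => one_ne_zero (g1.1.1.symm.trans (congrFun e a₀))) g1.1.2 g4
    (by simpa using g5)
  simp only [g3, logHeight_mul_left g2] at g7
  rw [div_le_iff₀' (half_pos hε)] at g6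
  have g8 := mul_le_mul_of_nonneg_left g1.2 (half_pos hε).le
  change logHeight (a m) ≤ _ at g7
  linarith

theorem gapT (hF : CF) {r : ℕ} {𝓕 : Filter β} {x : β → ι → k} {t : β → Fin r → k}
    (hg : ∀ (f : MvPolynomial ι k) (n : ℕ), f.IsHomogeneous n → f ∉ A.I →
      ∀ᶠ b in 𝓕, eval (x b) f ≠ 0) (hI : HF 𝓕 x t) : GT A a₀ 𝓕 x t := by
  intro κ _ Cs M γ hγ
  by_contra hcon
  have hS : ∀ τ : {W : Set β // W ∈ 𝓕} × ℝ, ∃ y : β × ℝ × (κ → k), (y.1 ∈ τ.1.1 ∧ τ.2 ≤ y.2.1) ∧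
      (Aff A a₀ (x y.1) ∧ logHeight (x y.1) ≤ y.2.1 ∧ Gap Cs (γ * y.2.1) (x y.1) y.2.2) ∧
      y.2.2 ᵥ* M.map (eval (x y.1)) ≠ 0 ∧ (y.2.2 ᵥ* M.map (eval (x y.1))) ⬝ᵥ t y.1 = 0 := fun τ => by
    by_contra h
    exact hcon ⟨τ.1.1, τ.1.2, τ.2, fun b h0 q z h1 h2 h3 h4 h5 h6 =>
      h ⟨(b, q, z), ⟨h0, h1⟩, ⟨h2, h3, h4⟩, h5, h6⟩⟩
  have : Nonempty (β × ℝ × (κ → k)) := (hS (⟨Set.univ, univ_mem⟩, 0)).nonempty
  obtain ⟨U, hU⟩ := gapF_ex _ hS fun τ τ' => ⟨(⟨τ.1.1 ∩ τ'.1.1, inter_mem τ.1.2 τ'.1.2⟩,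
    max τ.2 τ'.2), fun y hy => ⟨⟨⟨hy.1.1.1, (le_max_left _ _).trans hy.1.2⟩, hy.2⟩,
      ⟨hy.1.1.2, (le_max_right _ _).trans hy.1.2⟩, hy.2⟩⟩
  have h := (hU (⟨Set.univ, univ_mem⟩, 0)).mono fun y hy => hy.2
  obtain ⟨a, ha⟩ : ∃ a, ∀ᶠ m : β × ℝ × (κ → k) in U, m.2.2 a ≠ 0 :=
    Ultrafilter.eventually_exists_iff.1 (h.mono fun m hm => Function.ne_iff.1 hm.1.2.2.ne)
  obtain ⟨l₀, hl₀⟩ : ∃ l, ∀ᶠ m : β × ℝ × (κ → k) in U,
      (m.2.2 ᵥ* M.map (eval (x m.1))) l ≠ 0 :=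
    Ultrafilter.eventually_exists_iff.1 (h.mono fun m hm => Function.ne_iff.1 hm.2.1)
  let w : β × ℝ × (κ → k) → Fin r → k := fun m => (m.2.2 a)⁻¹ • (m.2.2 ᵥ* M.map (eval (x m.1)))
  have hw : ∀ l, gv U w l = ∑ b, (germ U fun m => m.2.2 b / m.2.2 a) *
      aeval (gv U fun m => x m.1) (M b l) := fun l => by
    simp only [aeval_germ, ← map_mul]
    rw [germ_sum]
    refine congrArg _ (funext fun m => ?_)
    simp only [w, Pi.smul_apply, smul_eq_mul, vecMul, dotProduct, Matrix.map_apply,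
      Finset.mul_sum, Pi.mul_apply]
    exact Finset.sum_congr rfl fun b _ => by ring
  have hj : Tendsto (Prod.fst : β × ℝ × (κ → k) → β) U 𝓕 := fun W hW =>
    (hU (⟨W, hW⟩, 0)).mono fun y hy => hy.1.1
  have hq : Tendsto (fun y : β × ℝ × (κ → k) => y.2.1) U atTop := tendsto_atTop.2 fun Q =>
    (hU (⟨Set.univ, univ_mem⟩, Q)).mono fun y hy => hy.1.2
  have n4 := gap_rat (shr (a₀ := a₀) (x := fun m : β × ℝ × (κ → k) => x m.1) hF
      (fun f n h1 h2 => hj.eventually (hg f n h1 h2)) hq (h.mono fun y hy => ⟨hy.1.1, hy.1.2.1⟩))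
    (bdd (a₀ := a₀) hq (h.mono fun y hy => ⟨hy.1.1.1, hy.1.2.1⟩)) hq hγ (x := fun m => x m.1)
    (fun c => ⟨⟨_, IntermediateField.subset_adjoin _ _ ⟨c, rfl⟩⟩, rfl⟩)
    (fun c => ⟨algebraMap k _ c, rfl⟩) (Cs := Cs) (z := fun m => m.2.2)
    (h.mono fun y hy => hy.1.2.2) ha
    fun b => mem_cl'.1 (gap_alg hγ hq (h.mono fun y hy => hy.1) a b)
  have h1 := hI _ U Prod.fst hj (gv U w)
    (fun l => by
      rw [hw]
      refine sum_mem fun b _ => mul_mem ?_
        ((IntermediateField.mem_adjoin_range_iff _ _ _).2 ⟨M b l, 1, by rw [map_one, div_one]⟩)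
      obtain ⟨u, hu⟩ := n4 b
      exact hu ▸ u.2)
    (by
      rw [gv_dot]
      refine germ_eq_zero.2 (h.mono fun m hm => ?_)
      simp only [w, smul_dotProduct, hm.2.2, smul_zero])
  exact germ_ne_zero.2 ((ha.and hl₀).mono fun m hm => mul_ne_zero (inv_ne_zero hm.1) hm.2)
    (congrFun h1 l₀)

end Pool.Agent.Lib.MP_651af7_nt.Nf
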