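import Pool.Agent.Lib.MP_651af7_nt.Nc.Main
import Pool.Agent.Lib.MP_651af7_nt.Nf.Eng

/-! Integral points on covers of the cone over an abelian variety, no condition on constants. -/

namespace Pool.Agent.Lib.MP_651af7_nt.Nf

open MvPolynomial Finset Height NumberField Filter Real Module Fc Tb Ds Sl
open IntermediateField (adjoin)

theorem split (hC : CF) (k : Type) [Field k] [NumberField k] (N q : ℕ)
    (J : Ideal (MvPolynomial (Fin N) k)) (hJ : ∀ P ∈ J, ∀ d, homogeneousComponent d P ∈ J)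
    (hA : Abelian (J.map (MvPolynomial.map (algebraMap k (AlgebraicClosure k)))))
    (K : Type) [Field K] [Algebra k K] (ξ : Fin N → K) (σ : Fin q → K)
    (hξ : ∀ P, aeval ξ P = 0 ↔ P ∈ J)
    (hσ : ∀ l, IsAlgebraic (Algebra.adjoin k (Set.range ξ)) (σ l))
    (hK : adjoin k (Set.range (Sum.elim ξ σ)) = ⊤) (i : Fin N) (F : IntermediateField k K)
    (hF : F = adjoin k (Set.range fun j => ξ j / ξ i))
    (O O' : ValuationSubring K) (hO : O ≠ O') (hF' : ∀ z ∈ F, z ∈ O ∧ z ∈ O')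
    (hi : ξ i ∉ O ∧ ξ i ∉ O') :
    ∃ (Θ : MvPolynomial (Fin N) k) (e : ℕ) (c : ℝ), Θ.IsHomogeneous e ∧ Θ ∉ J ∧
      ∀ S : Finset (FinitePlace k), ∃ C : ℝ, ∀ (v : Fin N → k) (s : Fin q → k),
        (∀ P, aeval (Sum.elim ξ σ) P = 0 → eval (Sum.elim v s) P = 0) → eval v Θ ≠ 0 →
        logHeight (fun o : Option (Fin N) => o.elim 1 v) ≤
          c * ∑ᶠ w ∈ (S : Set (FinitePlace k))ᶜ,
            (|log (⨆ j, w (v j))| + log⁺ (⨆ l, w (s l))) + C := by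
  subst hF
  have t0 : ξ i ≠ 0 := fun e => hi.1 (e ▸ O.zero_mem)
  have e0 : (fun j => ξ j / ξ i) = fun j => (ξ i)⁻¹ * ξ j := funext fun j => div_eq_inv_mul _ _
  have D : Nc.Dn J fun j => ξ j / ξ i := dn hC ⟨hJ, ⟨i, div_self t0⟩, fun P d hP => by
    rw [← hξ, ← Av.hom_smul_iff hP (inv_ne_zero t0) ξ, e0]⟩ hA
  obtain ⟨W, ⟨Θ₁, a1, a2⟩, c₁, c1, h1⟩ := Nc.generic D hσ hK hO hF' hi
  obtain ⟨R, r1, r2⟩ := exists_norm hσ a1
  obtain ⟨Θ, e, t1, t2, c₂, c2, h2⟩ := hyp_bd hJ hA (mt (hξ R).2 r1)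
  refine ⟨Θ, e, c₁ + c₂, t1, t2, fun S => ?_⟩
  obtain ⟨C₁, h1⟩ := h1 S
  obtain ⟨C₂, h2⟩ := h2 S
  refine ⟨max C₁ C₂, fun v s hz hΘ => ?_⟩
  have n1 := oS_mono (S := S) (fs_ls v).abs ((fs_ls v).abs.add (fs_pos s)) fun w _ =>
    le_add_of_nonneg_right posLog_nonneg
  have n2 : 0 ≤ oS S fun w => |ls v w| := oS_nonneg fun _ => abs_nonneg _
  change _ ≤ _ * oS S (fun w => |ls v w| + log⁺ (⨆ l, w (s l))) + _
  by_cases h0 : eval (Sum.elim v s) Θ₁ = 0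
  · have := h2 v (fun P hP => (eval_rename Sum.inl (Sum.elim v s) P).symm.trans
      (hz _ ((aeval_rename Sum.inl (Sum.elim ξ σ) P).trans ((hξ P).2 hP)))) hΘ (r2 v s hz h0)
    nlinarith [le_max_right C₁ C₂, mul_le_mul_of_nonneg_left n1 c2, mul_nonneg c1 (n2.trans n1)]
  · have := h1 _ (a2 _ hz h0)
    simp only [Sum.elim_inl, Sum.elim_inr] at this
    nlinarith [le_max_left C₁ C₂, mul_nonneg c2 (n2.trans n1)]

end Pool.Agent.Lib.MP_651af7_nt.Nf
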